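import Pool.Agent.Helper88.QT.St1
import Pool.Agent.Helper85.QT.St1

/-!
Project QT (MP_d112a4_gt): module ENL (the exponent is at least one).
-/

set_option autoImplicit false

open MeasureTheory Matrix Set Topology Filter
open scoped ENNReal ComplexConjugate

namespace Helper87.QT

open Pool.Agent.Helper86.QA Pool.Agent.Helper85.QT Pool.Agent.Helper88.QT
open Pool.Agent.Helper35.PM (hs)

theorem oo_up : oo ∈ up := by
  show (0 : ℝ) < 1
  norm_num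

/-- `hs g` through the image of the base point -/
theorem hs_oo (hACT : StACT) (g : SL) :
    hs (g : Mat) = (‖(ga g oo).1‖ ^ 2 + (ga g oo).2 ^ 2) / (ga g oo).2 + 1 / (ga g oo).2 := by
  have h := (hACT.1 g oo oo_up).2.2
  have e00 := congrFun (congrFun h 0) 0
  have e11 := congrFun (congrFun h 1) 1
  have X : Xm oo = 1 := by
    ext i j
    fin_cases i <;> fin_cases j <;> simp [Xm, oo]
  rw [X, mul_one] at e00 e11
  rw [Matrix.mul_apply, Fin.sum_univ_two, conjTranspose_apply, conjTranspose_apply] at e00 e11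
  have k : ∀ z : ℂ, z * star z = ((‖z‖ ^ 2 : ℝ) : ℂ) := by
    intro z
    rw [Complex.star_def, Complex.mul_conj, Complex.normSq_eq_norm_sq]
  rw [k, k] at e00 e11
  have f00 : (‖(ga g oo).1‖ ^ 2 + (ga g oo).2 ^ 2) / (ga g oo).2
      = ‖g 0 0‖ ^ 2 + ‖g 0 1‖ ^ 2 := by
    have : (((‖(ga g oo).1‖ ^ 2 + (ga g oo).2 ^ 2) / (ga g oo).2 : ℝ) : ℂ)
        = (((‖g 0 0‖ ^ 2 : ℝ)) : ℂ) + ((‖g 0 1‖ ^ 2 : ℝ) : ℂ) := e00
    exact_mod_cast this
  have f11 : 1 / (ga g oo).2 = ‖g 1 0‖ ^ 2 + ‖g 1 1‖ ^ 2 := by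
    have : ((1 / (ga g oo).2 : ℝ) : ℂ)
        = (((‖g 1 0‖ ^ 2 : ℝ)) : ℂ) + ((‖g 1 1‖ ^ 2 : ℝ) : ℂ) := e11
    exact_mod_cast this
  rw [f00, f11]
  simp only [hs, Fin.sum_univ_two]

/-- consequences of `ch x y ≤ C` -/
theorem ch_bd {x y : Pt} {C : ℝ} (hx : x ∈ up) (hy : y ∈ up) (h : ch x y ≤ C) :
    y.2 ≤ 2 * C * x.2 ∧ x.2 ≤ 2 * C * y.2 ∧ ‖x.1 - y.1‖ ^ 2 ≤ 2 * C * x.2 * y.2 := by
  have hx' : 0 < x.2 := hx
  have hy' : 0 < y.2 := hy
  unfold ch at h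
  rw [div_le_iff₀ (by positivity)] at h
  have h2 : ‖x.1 - y.1‖ ^ 2 + x.2 ^ 2 + y.2 ^ 2 ≤ 2 * C * x.2 * y.2 := by linarith
  have p := sq_nonneg (‖x.1 - y.1‖)
  refine ⟨?_, ?_, ?_⟩
  · have : y.2 * y.2 ≤ (2 * C * x.2) * y.2 := by nlinarith [sq_nonneg x.2]
    exact le_of_mul_le_mul_right this hy'
  · have : x.2 * x.2 ≤ (2 * C * y.2) * x.2 := by nlinarith [sq_nonneg y.2]
    exact le_of_mul_le_mul_right this hx'
  · nlinarith [sq_nonneg x.2, sq_nonneg y.2]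

/-- part (a): over every point of the limit set there are orbit points at small height -/
theorem part_a (hACT : StACT) (hCHI : StCHI) (hSB1 : StSB1) (hSB6 : StSB6) (Γ : Type) [Group Γ]
    (ρ : Γ →* SL) (A B : Set ℂ) (hK : KD ρ A B) (R : ℝ) (hR : 0 ≤ R) :
    ∃ C C' : ℝ, 1 ≤ C ∧ 0 < C' ∧ ∀ ξ ∈ LS A B, ‖ξ‖ ≤ R → ∀ t : ℝ, 0 < t → t ≤ 1 → ∃ δ : Γ,
      1 / (2 * C * t) ≤ hs (ρ δ : Mat) ∧
      ‖ξ - (ga (ρ δ) oo).1‖ ≤ C' * (hs (ρ δ : Mat))⁻¹ := by
  obtain ⟨-, -, -, -, -, hsb⟩ := hSB1 Γ ρ A B hK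
  obtain ⟨K, hKc, hKu, hKx⟩ := hSB6 Γ ρ A B hK 0 le_rfl
  -- bound of `ch` on `K`
  have hcont : ContinuousOn (fun k : Pt => ch k oo) K := by
    have : ∀ k ∈ K, (2 * k.2 * oo.2) ≠ 0 := by
      intro k hk
      have h1 : 0 < k.2 := hKu hk
      have h2 : (0 : ℝ) < oo.2 := oo_up
      positivity
    unfold ch
    refine ContinuousOn.div ?_ ?_ this
    · fun_prop
    · fun_prop
  obtain ⟨C0, hC0⟩ := (hKc.bddAbove_image hcont)
  set C : ℝ := max C0 1 with hC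
  have hC1 : 1 ≤ C := le_max_right _ _
  set M : ℝ := (R + 4 * C ^ 2) ^ 2 + 4 * C ^ 2 + 1 with hM
  have hM0 : 0 < M := by positivity
  refine ⟨C, 2 * C * M, hC1, by positivity, ?_⟩
  intro ξ hξ hξR t ht ht1
  have hx : ((ξ, t) : Pt) ∈ up := ht
  have h0 : sb A B (ξ, t) ≤ 0 := by
    have := (hsb (ξ, t) hx).2.2 ξ hξ
    simpa using this
  obtain ⟨γ, hγ⟩ := hKx (ξ, t) hx h0
  refine ⟨γ⁻¹, ?_⟩
  set o : Pt := ga (ρ γ⁻¹) oo with ho
  have hou : o ∈ up := (hACT.1 (ρ γ⁻¹) oo oo_up).2.1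
  have hgo : ga (ρ γ) o = oo := by
    rw [ho, ← hACT.2.1 (ρ γ) (ρ γ⁻¹) oo oo_up, ← map_mul, mul_inv_cancel, map_one]
    exact hACT.2.2.1 oo oo_up
  have hch : ch (ξ, t) o ≤ C := by
    have k1 := (hCHI.2.1 (ρ γ) (ξ, t) hx o hou).1
    rw [← k1, hgo]
    exact (hC0 (mem_image_of_mem _ hγ)).trans (le_max_left _ _)
  obtain ⟨b1, b2, b3⟩ := ch_bd hx hou hch
  have hτ : 0 < o.2 := hou
  simp only at b1 b2 b3
  have hs1 := hs_oo hACT (ρ γ⁻¹)
  rw [← ho] at hs1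
  have hs2 : hs (ρ γ⁻¹ : Mat) = (‖o.1‖ ^ 2 + o.2 ^ 2 + 1) / o.2 := by
    rw [hs1, ← add_div]
  have hτC : o.2 ≤ 2 * C := by nlinarith
  have hdist : ‖ξ - o.1‖ ≤ 2 * C * o.2 := by
    have k1 : ‖ξ - o.1‖ ^ 2 ≤ (2 * C * o.2) ^ 2 := by
      refine b3.trans ?_
      have : 2 * C * t * o.2 ≤ 2 * C * (2 * C * o.2) * o.2 := by
        have : 0 ≤ 2 * C * o.2 := by positivity
        nlinarith
      calc 2 * C * t * o.2 ≤ 2 * C * (2 * C * o.2) * o.2 := this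
        _ = (2 * C * o.2) ^ 2 := by ring
    exact (sq_le_sq₀ (norm_nonneg _) (by positivity)).mp k1
  have ho1 : ‖o.1‖ ≤ R + 4 * C ^ 2 := by
    have k1 : ‖o.1‖ ≤ ‖ξ‖ + ‖ξ - o.1‖ := by
      calc ‖o.1‖ = ‖ξ - (ξ - o.1)‖ := by congr 1; ring
        _ ≤ _ := norm_sub_le _ _
    have k2 : 2 * C * o.2 ≤ 4 * C ^ 2 := by nlinarith
    linarith
  have hsM : hs (ρ γ⁻¹ : Mat) ≤ M / o.2 := by
    rw [hs2]
    apply div_le_div_of_nonneg_right _ hτ.le
    have k1 : ‖o.1‖ ^ 2 ≤ (R + 4 * C ^ 2) ^ 2 := by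
      have := norm_nonneg o.1
      gcongr
    have k2 : o.2 ^ 2 ≤ 4 * C ^ 2 := by nlinarith
    linarith
  have hspos : 1 / o.2 ≤ hs (ρ γ⁻¹ : Mat) := by
    rw [hs2]
    apply div_le_div_of_nonneg_right _ hτ.le
    have := sq_nonneg ‖o.1‖
    have := sq_nonneg o.2
    linarith
  have hs0 : 0 < hs (ρ γ⁻¹ : Mat) := lt_of_lt_of_le (by positivity) hspos
  refine ⟨?_, ?_⟩
  · refine le_trans ?_ hspos
    exact one_div_le_one_div_of_le hτ b1
  · refine hdist.trans ?_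
    rw [le_div_iff₀ hτ] at hsM
    rw [← div_eq_mul_inv, le_div_iff₀ hs0]
    nlinarith [mul_le_mul_of_nonneg_left hsM (by positivity : (0 : ℝ) ≤ 2 * C)]

/-- part (b): the projection of the limit set contains an interval -/
theorem part_b (A B : Set ℂ) (hA : IsOpen A) (hB : IsOpen B) (nA : A.Nonempty) (nB : B.Nonempty)
    (hd : Disjoint A B) : ∃ (a n : ℂ) (r R : ℝ), ‖n‖ = 1 ∧ 0 < r ∧ 0 ≤ R ∧
      ∀ y ∈ Ioo (-r) r, ∃ ξ ∈ LS A B, ‖ξ‖ ≤ R ∧ (conj n * (ξ - a)).re = y := by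
  obtain ⟨a, ha⟩ := nA
  obtain ⟨b, hb⟩ := nB
  obtain ⟨r1, hr1, h1⟩ := Metric.isOpen_iff.mp hA a ha
  obtain ⟨r2, hr2, h2⟩ := Metric.isOpen_iff.mp hB b hb
  have hab : b - a ≠ 0 := by
    intro h
    have : b = a := by linear_combination h
    rw [this] at hb
    exact (Set.disjoint_left.mp hd) ha hb
  have hab' : 0 < ‖b - a‖ := norm_pos_iff.mpr hab
  set n : ℂ := Complex.I * (b - a) / (‖b - a‖ : ℂ) with hn
  have hn1 : ‖n‖ = 1 := by
    rw [hn, norm_div, norm_mul, Complex.norm_I, one_mul, Complex.norm_real, norm_norm]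
    exact div_self hab'.ne'
  set r : ℝ := min r1 r2 with hr
  have hr0 : 0 < r := lt_min hr1 hr2
  refine ⟨a, n, r, ‖a‖ + ‖b‖ + r + ‖b - a‖, hn1, hr0, by positivity, ?_⟩
  intro y hy
  have hyr : |y| < r := abs_lt.mpr hy
  have hnn : conj n * n = 1 := by
    rw [mul_comm, Complex.mul_conj, Complex.normSq_eq_norm_sq, hn1]
    simp
  have hnb : (conj n * (b - a)).re = 0 := by
    have : conj n * (b - a) = -(Complex.I * (‖b - a‖ : ℂ)) := by
      rw [hn, map_div₀, map_mul, Complex.conj_I, Complex.conj_ofReal]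
      have hne : (‖b - a‖ : ℂ) ≠ 0 := by exact_mod_cast hab'.ne'
      field_simp
      have k : (b - a) * conj (b - a) = ((‖b - a‖ ^ 2 : ℝ) : ℂ) := by
        rw [Complex.mul_conj, Complex.normSq_eq_norm_sq]
      rw [k]
      push_cast
      ring
    rw [this]
    simp
  -- the segment
  set c : ℝ → ℂ := fun s => a + y * n + s * (b - a) with hc
  have hcc : Continuous c := by rw [hc]; fun_prop
  have hseg : IsPreconnected (c '' Icc 0 1) := isPreconnected_Icc.image _ hcc.continuousOn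
  have hmem : ∃ s ∈ Icc (0 : ℝ) 1, c s ∈ LS A B := by
    by_contra hcon
    push Not at hcon
    have hsub : c '' Icc 0 1 ⊆ A ∪ B := by
      rintro _ ⟨s, hs, rfl⟩
      have := hcon s hs
      unfold LS at this
      rwa [Set.mem_compl_iff, not_not] at this
    have e0 : (c '' Icc 0 1 ∩ A).Nonempty := by
      refine ⟨c 0, mem_image_of_mem _ (by simp), h1 ?_⟩
      rw [Metric.mem_ball, dist_eq_norm]
      have : c 0 - a = y * n := by rw [hc]; simp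
      rw [this, norm_mul, hn1, mul_one, Complex.norm_real]
      exact hyr.trans_le (min_le_left _ _)
    have e1 : (c '' Icc 0 1 ∩ B).Nonempty := by
      refine ⟨c 1, mem_image_of_mem _ (by simp), h2 ?_⟩
      rw [Metric.mem_ball, dist_eq_norm]
      have : c 1 - b = y * n := by rw [hc]; push_cast; ring
      rw [this, norm_mul, hn1, mul_one, Complex.norm_real]
      exact hyr.trans_le (min_le_right _ _)
    obtain ⟨p, -, hpA, hpB⟩ := hseg A B hA hB hsub e0 e1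
    exact (Set.disjoint_left.mp hd) hpA hpB
  obtain ⟨s, hs, hsL⟩ := hmem
  refine ⟨c s, hsL, ?_, ?_⟩
  · have k1 : ‖c s‖ ≤ ‖a‖ + ‖(y : ℂ) * n‖ + ‖(s : ℂ) * (b - a)‖ := by
      rw [hc]
      exact norm_add₃_le
    rw [norm_mul, norm_mul, hn1, mul_one, Complex.norm_real, Complex.norm_real] at k1
    have k2 : ‖s‖ * ‖b - a‖ ≤ 1 * ‖b - a‖ := by
      apply mul_le_mul_of_nonneg_right _ hab'.le
      rw [Real.norm_eq_abs, abs_of_nonneg hs.1]
      exact hs.2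
    have k3 : ‖y‖ ≤ r := hyr.le
    have := norm_nonneg b
    linarith
  · have k1 : conj n * (c s - a) = y * (conj n * n) + s * (conj n * (b - a)) := by
      rw [hc]; ring
    rw [k1, hnn, mul_one, Complex.add_re, Complex.ofReal_re, Complex.re_ofReal_mul, hnb, mul_zero,
      add_zero]

/-- ENL. The exponent is at least one. -/
theorem hENL (hACT : StACT) (hCHI : StCHI) (hSB1 : StSB1) (hSB6 : StSB6) : StENL := by
  intro Γ _ ρ A B hK hsum
  obtain ⟨a, n, r, R, hn, hr, hR, hproj⟩ := part_b A B hK.opA hK.opB hK.neA hK.neB hK.dis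
  obtain ⟨C, C', hC, hC', hpa⟩ := part_a hACT hCHI hSB1 hSB6 Γ ρ A B hK R hR
  have hspos : ∀ γ : Γ, 0 < hs (ρ γ : Mat) := by
    intro γ
    have h1 : 0 < (ga (ρ γ) oo).2 := (hACT.1 (ρ γ) oo oo_up).2.1
    rw [hs_oo hACT]
    positivity
  have hsum' : Summable (fun γ : Γ => (hs (ρ γ : Mat))⁻¹) := by
    refine hsum.congr ?_
    intro γ
    rw [Real.rpow_neg_one]
  have hcount : Countable Γ := by
    have h1 := hsum'.countable_support
    have h2 : Function.support (fun γ : Γ => (hs (ρ γ : Mat))⁻¹) = univ := by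
      ext γ
      simp [(hspos γ).ne']
    rw [h2] at h1
    exact Set.countable_univ_iff.mp h1
  -- choose a finite set with small tail
  have htail := tendsto_tsum_compl_atTop_zero (fun γ : Γ => (hs (ρ γ : Mat))⁻¹)
  have hev := htail.eventually (gt_mem_nhds (show (0 : ℝ) < r / C' by positivity))
  obtain ⟨F, hF⟩ := hev.exists
  -- the height
  obtain ⟨M, hM⟩ : ∃ M : ℝ, 0 < M ∧ ∀ γ ∈ F, hs (ρ γ : Mat) < M := by
    refine ⟨∑ γ ∈ F, hs (ρ γ : Mat) + 1, ?_, ?_⟩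
    · have : 0 ≤ ∑ γ ∈ F, hs (ρ γ : Mat) := Finset.sum_nonneg (fun γ (_ : γ ∈ F) => (hspos γ).le)
      linarith
    · intro γ hγ
      have : hs (ρ γ : Mat) ≤ ∑ γ ∈ F, hs (ρ γ : Mat) :=
        Finset.single_le_sum (f := fun γ => hs (ρ γ : Mat))
          (fun γ (_ : γ ∈ F) => (hspos γ).le) hγ
      linarith
  set t : ℝ := min 1 (1 / (2 * C * M)) with ht
  have hM0 := hM.1
  have ht0 : 0 < t := lt_min one_pos (by positivity)
  have ht1 : t ≤ 1 := min_le_left _ _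
  have htM : M ≤ 1 / (2 * C * t) := by
    have h1 : t ≤ 1 / (2 * C * M) := min_le_right _ _
    rw [le_div_iff₀ (by positivity)] at h1 ⊢
    linarith
  -- covering
  let S : {γ : Γ // γ ∉ F} → Set ℝ := fun γ =>
    Metric.closedBall ((conj n * ((ga (ρ γ.1) oo).1 - a)).re) (C' * (hs (ρ γ.1 : Mat))⁻¹)
  have hcov : Ioo (-r) r ⊆ ⋃ γ, S γ := by
    intro y hy
    obtain ⟨ξ, hξ, hξR, hξy⟩ := hproj y hy
    obtain ⟨δ, h1, h2⟩ := hpa ξ hξ hξR t ht0 ht1
    have hδ : δ ∉ F := by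
      intro h
      have := hM.2 δ h
      linarith
    refine mem_iUnion.mpr ⟨⟨δ, hδ⟩, ?_⟩
    show y ∈ Metric.closedBall _ _
    rw [Metric.mem_closedBall, Real.dist_eq, ← hξy, ← Complex.sub_re]
    refine (Complex.abs_re_le_norm _).trans ?_
    have : conj n * (ξ - a) - conj n * ((ga (ρ δ) oo).1 - a) = conj n * (ξ - (ga (ρ δ) oo).1) := by
      ring
    rw [this, norm_mul, Complex.norm_conj, hn, one_mul]
    exact h2
  have hvol : volume (Ioo (-r) r) ≤ ∑' γ, volume (S γ) :=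
    (measure_mono hcov).trans (measure_iUnion_le _)
  have hS : ∀ γ, volume (S γ) = ENNReal.ofReal (2 * C' * (hs (ρ γ.1 : Mat))⁻¹) := by
    intro γ
    show volume (Metric.closedBall _ _) = _
    rw [Real.volume_closedBall]
    congr 1
    ring
  have hsub : Summable (fun γ : {γ : Γ // γ ∉ F} => 2 * C' * (hs (ρ γ.1 : Mat))⁻¹) :=
    (hsum'.subtype _).mul_left _
  have hnn : ∀ γ : {γ : Γ // γ ∉ F}, 0 ≤ 2 * C' * (hs (ρ γ.1 : Mat))⁻¹ := by
    intro γ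
    have := hspos γ.1
    positivity
  rw [Real.volume_Ioo, tsum_congr hS, ← ENNReal.ofReal_tsum_of_nonneg hnn hsub] at hvol
  have hle := (ENNReal.ofReal_le_ofReal_iff (tsum_nonneg hnn)).mp hvol
  rw [tsum_mul_left] at hle
  rw [lt_div_iff₀ hC'] at hF
  linarith

end Helper87.QT
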