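import Pool.Agent.Helper88.QT.St4

/-!
Project QT (MP_d112a4_gt): module CSF (the cost of opening).
-/

set_option autoImplicit false

open MeasureTheory Matrix Set Topology Filter
open scoped ENNReal ComplexConjugate

namespace Pool.Agent.Helper87.QT

open Pool.Agent.Helper86.QA (KD ActOn FDOn CF ab rX Pt up ga mb ch oo)
open Pool.Agent.Helper85.QT (Ann Cls Cof Mlt Fm th Bnd DTub EBal Crs cen pq gp Tg TT)
open Pool.Agent.Helper35.PM
open Pool.Agent.Helper88.QT

/-- CSF. The cost of opening. -/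
theorem hCSF (hCHC : Pool.Agent.Helper88.QT.StCHC) (hOSD : Pool.Agent.Helper88.QT.StOSD)
    (hTPR : Pool.Agent.Helper88.QT.StTPR) : Pool.Agent.Helper88.QT.StCSF := by
  intro g hg C3 a0 hC3 ha0
  obtain ⟨ms, C₁, hms, hC₁, hosd⟩ := hOSD g hg C3 a0 hC3 ha0
  obtain ⟨-, -, -, hzt, -, hsurj⟩ := hTPR
  refine ⟨ms, Real.exp 2, 41 * Real.sqrt (32 * C₁), hms, Real.one_le_exp (by norm_num),
    by positivity, ?_⟩
  intro U hU ρ α m hT t ht0 ht1 hK
  obtain ⟨L, hL0, hLt⟩ := hsurj t ht0 ht1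
  rw [← hLt] at hK ⊢
  rw [(hzt L hL0).2] at hK
  have he2 : 1 ≤ Real.exp 2 := Real.one_le_exp (by norm_num)
  have h1 : 1 ≤ m * Real.exp (-L) := by nlinarith
  have hm : 0 < m := by
    by_contra hcon
    push Not at hcon
    have : m * Real.exp (-L) ≤ 0 := mul_nonpos_of_nonpos_of_nonneg hcon (Real.exp_pos _).le
    linarith
  have hLm : L ≤ Real.log m := by
    rw [Real.le_log_iff_exp_le hm]
    have h2 := mul_le_mul_of_nonneg_right h1 (Real.exp_pos L).le
    rw [one_mul, mul_assoc, ← Real.exp_add, neg_add_cancel, Real.exp_zero, mul_one] at h2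
    exact h2
  refine hCHC C₁ hC₁ g hg U hU ρ hT.hol (Real.log m) L hL0 hLm ?_
  intro τ hτ ζ hζ
  obtain ⟨hb, hf⟩ := hzt τ hτ.1
  have h3 : Real.exp 2 * ms ≤ m * ((1 - zt τ) / (1 + zt τ)).re := by
    rw [hf]
    refine hK.trans ?_
    apply mul_le_mul_of_nonneg_left _ hm.le
    exact Real.exp_le_exp.mpr (by linarith [hτ.2])
  have h4 := hosd U hU ρ α m hT (zt τ) hb h3 ζ hζ
  rw [hf] at h4
  refine h4.trans (le_of_eq ?_)
  have h5 : m * Real.exp (-τ) = Real.exp (Real.log m - τ) := by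
    rw [sub_eq_add_neg, Real.exp_add, Real.exp_log hm]
  rw [h5, ← Real.exp_mul]
  congr 2
  ring

end Pool.Agent.Helper87.QT
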